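import Pool.Agent.Mg.F2e8011.Ge1939e

open Pool.Agent.MP_a4672b_lc Pool.Agent.MP_2e8011_lc

theorem Pool.Agent.Results.MP_a4672b_lc.NPHard.result :
    ∀ L ∈ N68a2faeb.NP, N793a5b8e.ManyOneReducible L PathStabProblem := by
  intro L hL
  obtain ⟨f, hf, h⟩ := cookLevin hL
  refine ⟨fun x => inst (f x), (pt_inst.comp hf).isPolyTime_bits, fun x => ?_⟩
  rw [Bool.eq_iff_iff, inst_iff]
  exact h x
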